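import Pool.Agent.Helper22.NEARg.Defs
import Pool.Agent.Helper63.T5b.NumAbs
import Pool.Agent.Helper63.T5g.Late

/-!
# T5g, block NEARb: the numbers of a pair of states with a common front
-/

set_option autoImplicit false

namespace Pool.Agent.Helper63.T5g

open Finset
open Pool.Agent.Helper27.T4
open Pool.Agent.Helper37.T5g
open Pool.Agent.Helper30.T5g hiding pz_prime pz_inj NL_pos
open Pool.Agent.Helper22.HW Pool.Agent.Helper22.SL Pool.Agent.Helper57.T5
open Pool.Agent.Helper63.T5b (NumX Big wt wt0 wt1 wt2 Pr_L_succ)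
open Pool.Agent.Helper84.T5g Pool.Agent.Helper44.T5 Pool.Agent.Helper44.T5g Pool.Agent.Helper44.T5b
open Pool.Agent.Helper22.NEARg hiding lam
open Pool.Agent.Helper5.ET (bb era)
open Pool.Agent.Helper27.T5 (gw)
open Pool.Agent.Helper63.T5 (lam lam_gt lam_lt)
open Pool.Agent.Helper27.T5g (cpl_ef cpl_self Jn_mul_RT rL_bounds mL_le_ut)

variable {m : Sq} {k t l' l : ℕ}

/-! ## the schedule -/

/-- the sizes -/
theorem dist_lt (hm : m.Ok) (h : PDb m k t l' l) : 512 * (l - l') < wW m k l t := by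
  have h1 := h.com
  unfold ef at h1
  rw [h.sL_eq] at h1
  have h2 := dist_of_common hm h.le h1
  have h3 := PZ_mul hm (sL m k l - t)
  unfold wW
  omega

theorem D7 (hm : m.Ok) (h : PDb m k t l' l) : 20 * (l - l') < 7 * wW m k l t := by
  have := dist_lt hm h
  omega

theorem D2 (hm : m.Ok) (h : PDb m k t l' l) (h2 : t + 2 ≤ rL m k l) :
    wW m k l (t + 2) < 1024 * (l - l') := by
  have h1 := h.jump (t + 1) (by omega) (by omega)
  have h3 := h.jump (t + 2) (by omega) h2
  unfold ef at h1 h3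
  rw [h.sL_eq] at h1 h3
  have h4 := rL_bounds hm k l
  have h5 := two_jumps hm (show sL m k l - (t + 2) < sL m k l - (t + 1) by omega) h.le h3 h1
  have h6 := PZ_mul hm (sL m k l - (t + 2))
  unfold wW
  omega

/-- the ratio of the windows -/
theorem wW_step (hm : m.Ok) (k l : ℕ) {i : ℕ} (hi : i < sL m k l) :
    2 ^ 20 * wW m k l (i + 1) ≤ wW m k l i := by
  unfold wW
  obtain ⟨u, hu⟩ : ∃ u, sL m k l - i = u + 1 := ⟨sL m k l - i - 1, by omega⟩
  have h1 : sL m k l - (i + 1) = u := by omega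
  rw [hu, h1]
  exact (Nat.mul_le_mul_right _ (Nat.pow_le_pow_right (by norm_num) (by norm_num))).trans
    (SS_succ_ge hm u)

theorem wW_anti (m : Sq) (k l : ℕ) {i i' : ℕ} (hi : i ≤ i') : wW m k l i' ≤ wW m k l i :=
  SS_mono m (by omega)

/-- at most three levels -/
theorem hb_le_three (hm : m.Ok) (h : PDb m k t l' l) : hb m k t l' l ≤ 3 := by
  by_contra hc
  have h1 := lt_hb (m := m) (k := k) (t := t) (l' := l') (l := l) (h := 3) (by omega) (by omega)
  have h2 := D2 hm h (by omega)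
  have h4 := rL_bounds hm k l
  have h3 := wW_step hm k l (i := t + 2) (by omega)
  have e : t + 2 + 1 = t + 3 := rfl
  rw [e] at h3
  omega

theorem r_lt (hm : m.Ok) (h : PDb m k t l' l) {r : ℕ} (hr : r < hb m k t l' l) :
    20 * (l - l') < 7 * wW m k l (t + r) ∧ t + r < rL m k l := by
  rcases Nat.eq_zero_or_pos r with h0 | h0
  · subst h0
    exact ⟨D7 hm h, h.tr⟩
  · exact lt_hb h0 hr

theorem r_le (h : PDb m k t l' l) {r : ℕ} (hr : r ≤ hb m k t l' l) : t + r ≤ rL m k l := by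
  have := hb_le (l' := l') h.tr
  omega

/-- index of the size -/
theorem bL_le_idx (hm : m.Ok) {i : ℕ} (hi : i ≤ rL m k l) : bL m k l ≤ sL m k l - i := by
  have h4 := rL_bounds hm k l
  omega

/-! ## the structure `NumX` -/

/-- the constant of the structure `Num` -/
noncomputable def KB (k : ℕ) : ℝ := (200 * (BP k : ℝ) ^ 2) ^ 3 * (BP k : ℝ) ^ 2

theorem one_le_BP (k : ℕ) : (1 : ℝ) ≤ BP k := by exact_mod_cast BP_pos k

theorem KB_ge (k : ℕ) : (200 * (BP k : ℝ) ^ 2) ^ 3 ≤ KB k := by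
  unfold KB
  exact le_mul_of_one_le_right (by positivity) (one_le_pow₀ (one_le_BP k))

theorem one_le_KB (k : ℕ) : 1 ≤ KB k := by
  refine le_trans ?_ (KB_ge k)
  apply one_le_pow₀
  have h1 : (1 : ℝ) ≤ (BP k : ℝ) ^ 2 := one_le_pow₀ (one_le_BP k)
  linarith

theorem PN_p_le (m : Sq) (k t l' l r : ℕ) (i : Fin 3) : ((PN m k t l' l).p r i : ℝ) ≤ BP k := by
  have e : (PN m k t l' l).p r i = pz k (sL m k l - (t + r)) i := rfl
  rw [e]
  exact Nat.cast_le.2 (pz_le k (sL m k l - (t + r)) i)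

theorem two_primes_nonneg (x y : ℕ) : (0 : ℝ) ≤ 200 * (x : ℝ) * y := by positivity

theorem two_primes_le {x y : ℕ} {B : ℝ} (hx : (x : ℝ) ≤ B) (hy : (y : ℝ) ≤ B) :
    200 * (x : ℝ) * y ≤ 200 * B ^ 2 := by
  have h0 : (0 : ℝ) ≤ x := Nat.cast_nonneg _
  have h1 : (0 : ℝ) ≤ y := Nat.cast_nonneg _
  nlinarith

theorem PN_A_le (hm : m.Ok) (h : PDb m k t l' l) {r : ℕ} (hr : r ≤ (PN m k t l' l).h) :
    0 ≤ (PN m k t l' l).A r ∧ (PN m k t l' l).A r ≤ (200 * (BP k : ℝ) ^ 2) ^ 3 := by
  have hh3 := hb_le_three hm h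
  have h0 := one_le_BP k
  have h1 : (1 : ℝ) ≤ 200 * (BP k : ℝ) ^ 2 := by nlinarith
  have hr' : r ≤ hb m k t l' l := hr
  constructor
  · exact Finset.prod_nonneg (fun _ _ => two_primes_nonneg _ _)
  · unfold Pr.A
    calc ∏ i ∈ range r, (200 * ((PN m k t l' l).p i 0 : ℝ) * (PN m k t l' l).p i 1)
        ≤ ∏ _i ∈ range r, (200 * (BP k : ℝ) ^ 2) := by
          refine Finset.prod_le_prod (fun _ _ => two_primes_nonneg _ _) (fun i _ => ?_)
          exact two_primes_le (PN_p_le m k t l' l i 0) (PN_p_le m k t l' l i 1)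
      _ = (200 * (BP k : ℝ) ^ 2) ^ r := by rw [Finset.prod_const, card_range]
      _ ≤ (200 * (BP k : ℝ) ^ 2) ^ 3 := pow_le_pow_right₀ h1 (by omega)

/-- sizes of the windows and of the levels -/
noncomputable def wB (m : Sq) (k t l r : ℕ) : ℝ := (wW m k l (t + r) : ℝ) * lam

/-- **the structure `NumX` for a pair with a common front** -/
theorem numX (hm : m.Ok) (h : PDb m k t l' l) {c : ℝ} (hL : LateN m k c l') :
    NumX (PN m k t l' l) (lg m k l - lg m k l') (wB m k t l)
      (fun r => lg m k (ef m k l (t + r)) - lg m k l)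
      (fun r => lg m k (ef m k l' (t + r)) - lg m k l') (KB k) := by
  have hs := h.sL_eq
  have hbL := h.ble
  have hbb : bb 0 ≤ mL m k l := hL.bb.trans (Pool.Agent.Helper27.T5b.l1_mono _ h.le)
  have hlam := lam_gt
  have hlam0 : 0 ≤ lam := by linarith
  have hR : (0 : ℝ) < RT m k (sL m k l) := by exact_mod_cast RT_pos m k _
  have hrl : ∀ r ≤ (PN m k t l' l).h, t + r ≤ rL m k l := fun r hr => r_le h hr
  have hM : ((PN m k t l' l).M : ℝ) = Real.exp (lg m k l) / RT m k (sL m k l) :=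
    Jn_real (cpl_self hm hbb)
  have hM' : ((PN m k t l' l).M' : ℝ) = Real.exp (lg m k l') / RT m k (sL m k l) := by
    have := Jn_real (cpl_self hm hL.bb)
    rw [hs] at this
    exact this
  have hF : ∀ r, ((PN m k t l' l).F r : ℝ) =
      Real.exp (lg m k (ef m k l (t + r))) / RT m k (sL m k l) := fun r =>
    Jn_real (cpl_ef hm hbb (t + r))
  have hF' : ∀ r, ((PN m k t l' l).F' r : ℝ) =
      Real.exp (lg m k (ef m k l' (t + r))) / RT m k (sL m k l) := by
    intro r
    have := Jn_real (cpl_ef hm hL.bb (t + r))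
    rw [hs] at this
    show ((Jn m k (sL m k l') (ef m k l' (t + r)) : ℕ) : ℝ) = _
    rw [hs]
    exact this
  have hq : ∀ r i, (PN m k t l' l).q r i = QF m k (sL m k l - (t + r)) i := fun r i => rfl
  have hsz : ∀ r ≤ (PN m k t l' l).h, bL m k l' ≤ sL m k l - (t + r) := by
    intro r hr
    exact hbL.trans (bL_le_idx hm (hrl r hr))
  have hszl : ∀ r < (PN m k t l' l).h, bL m k l' < sL m k l - (t + r) := by
    intro r hr
    have h1 := (r_lt hm h hr).2
    have h4 := rL_bounds hm k l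
    omega
  have hWb : ∀ r ≤ (PN m k t l' l).h, SS m (bL m k l') ≤ wW m k l (t + r) := fun r hr =>
    SS_mono m (hsz r hr)
  have hW20 : ∀ r ≤ (PN m k t l' l).h, (20000 : ℝ) ≤ wW m k l (t + r) := by
    intro r hr
    obtain ⟨C, -, h2⟩ := hL.nl
    have := hWb r hr
    exact_mod_cast (by omega : 20000 ≤ wW m k l (t + r))
  have hw0 : ∀ r, 0 ≤ wB m k t l r := fun r => mul_nonneg (Nat.cast_nonneg _) hlam0
  refine
    { D0 := ?_
      M := ?_
      M'0 := ?_
      F := ?_
      F' := ?_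
      sl := ?_
      su := ?_
      sl' := ?_
      su' := ?_
      q0 := ?_
      q1 := ?_
      q2 := ?_
      qu := ?_
      deep := ?_
      w1 := ?_
      w0 := hw0 _
      Dl := ?_
      jump := ?_
      K1 := one_le_KB k
      A := ?_
      Ap := ?_
      h3 := hb_le_three hm h
      qg := ?_
      deepX := ?_ }
  · have := lg_mono m k h.le
    linarith
  · rw [hM, hM', Real.exp_sub]
    field_simp
  · exact Jn_pos _ _ _ _
  · intro r _
    rw [hM, hF, Real.exp_sub]
    field_simp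
  · intro r _
    rw [hM', hF', Real.exp_sub]
    field_simp
  · intro r hr
    exact (hL.lead hm h.le (hsz r hr)).1
  · intro r hr
    exact (hL.lead hm h.le (hsz r hr)).2
  · intro r hr
    have := (hL.lead hm le_rfl (hsz r hr)).1
    rw [← hs] at this
    have e : wB m k t l r = (SS m (sL m k l' - (t + r)) : ℝ) * lam := by
      unfold wB wW
      rw [hs]
    rw [e]
    exact this
  · intro r hr
    have := (hL.lead hm le_rfl (hsz r hr)).2
    rw [← hs] at this
    have e : wB m k t l r = (SS m (sL m k l' - (t + r)) : ℝ) * lam := by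
      unfold wB wW
      rw [hs]
    rw [e]
    exact this
  · intro r hr
    rw [hq]
    refine hL.q_ge hm (hszl r hr) 0 ?_
    rw [Pool.Agent.Helper63.T5.gw0]
    norm_num
  · intro r hr
    rw [hq]
    refine hL.q_ge hm (hszl r hr) 1 ?_
    rw [Pool.Agent.Helper63.T5.gw1]
    norm_num
  · intro r hr
    rw [hq]
    refine hL.q_ge hm (hszl r hr) 2 ?_
    rw [Pool.Agent.Helper63.T5.gw2]
    norm_num
  · intro r _ i
    rw [hq]
    refine (q_le hm k _ i).trans (Real.exp_le_exp.2 ?_)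
    have e2 : (gw i : ℝ) ≤ 4 := by
      have : gw i ≤ 4 := by fin_cases i <;> simp [gw]
      exact_mod_cast this
    have e3 := hw0 r
    unfold wB wW at e3 ⊢
    nlinarith
  · intro r hr
    have h4 := rL_bounds hm k l
    have h5 := hrl r hr.le
    have h6 := (r_lt hm h hr).2
    have e1 := wW_step hm k l (i := t + r) (by omega)
    have e2 : (2 : ℝ) ^ 20 * (wW m k l (t + r + 1) : ℝ) ≤ wW m k l (t + r) := by exact_mod_cast e1
    have e3 : (0 : ℝ) ≤ (wW m k l (t + r + 1) : ℝ) := Nat.cast_nonneg _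
    norm_num at e2
    have e4 : 20 * (wW m k l (t + r + 1) : ℝ) ≤ wW m k l (t + r) := by linarith
    have e5 := mul_le_mul_of_nonneg_right e4 hlam0
    have e6 : t + (r + 1) = t + r + 1 := rfl
    unfold wB
    rw [e6]
    linarith
  · intro r hr
    have e1 := hW20 r hr.le
    unfold wB
    nlinarith
  · intro r hr
    have e1 := (r_lt hm h hr).1
    have e2 := hL.lg_le le_rfl h.le (hWb r hr.le)
    have e3 : 20 * ((l - l' : ℕ) : ℝ) ≤ 7 * (wW m k l (t + r) : ℝ) := by exact_mod_cast e1.le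
    refine e2.trans ?_
    unfold wB
    rw [← mul_assoc]
    apply mul_le_mul_of_nonneg_right _ hlam0
    have e4 : (0 : ℝ) ≤ (wW m k l (t + r) : ℝ) := Nat.cast_nonneg _
    linarith
  · intro r hr1 hr
    rw [hF, hF', div_mul_eq_mul_div, ← Real.exp_add]
    apply div_le_div_of_nonneg_right _ hR.le
    apply Real.exp_le_exp.2
    have e0 := h.jump (t + r) (by omega) (hrl r hr)
    have e1 : ef m k l' (t + r) + PZ m (sL m k l - (t + r)) ≤ ef m k l (t + r) := by
      unfold ef at e0 ⊢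
      rw [hs] at e0 ⊢
      exact ez_add_step h.le e0
    have e2 := PZ_mul hm (sL m k l - (t + r))
    have e3 := lg_ge m k (x := ef m k l' (t + r)) (y := ef m k l (t + r)) (by omega)
    have e4 : (PZ m (sL m k l - (t + r)) : ℝ) ≤
        ((ef m k l (t + r) - ef m k l' (t + r) : ℕ) : ℝ) := by
      exact_mod_cast (by omega : PZ m (sL m k l - (t + r)) ≤ ef m k l (t + r) - ef m k l' (t + r))
    have e5 : (512 : ℝ) * PZ m (sL m k l - (t + r)) = wW m k l (t + r) := by
      unfold wW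
      exact_mod_cast e2
    have e6 := mul_le_mul_of_nonneg_right e4 hlam0
    have e7 : wB m k t l r / 512 = (PZ m (sL m k l - (t + r)) : ℝ) * lam := by
      unfold wB
      rw [← e5]
      ring
    rw [e7]
    linarith
  · intro r hr
    exact (PN_A_le hm h hr).2.trans (KB_ge k)
  · intro r hr
    have e1 := PN_A_le hm h hr.le
    have e4 := PN_p_le m k t l' l r 0
    have e5 := PN_p_le m k t l' l r 2
    unfold KB
    have e6 : ((PN m k t l' l).p r 0 : ℝ) * (PN m k t l' l).p r 2 ≤ (BP k : ℝ) ^ 2 := by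
      rw [sq]
      exact mul_le_mul e4 e5 (Nat.cast_nonneg _) (by linarith [one_le_BP k])
    exact mul_le_mul e1.2 e6 (mul_nonneg (Nat.cast_nonneg _) (Nat.cast_nonneg _)) (by positivity)
  · intro r _ i
    rw [hq]
    refine (q_le hm k _ i).trans (le_of_eq ?_)
    congr 1
    have e1 : wt i = (gw i : ℝ) / 8 := by
      fin_cases i
      · show wt 0 = ((gw 0 : ℕ) : ℝ) / 8
        rw [wt0, Pool.Agent.Helper63.T5.gw0]
        norm_num
      · show wt 1 = ((gw 1 : ℕ) : ℝ) / 8
        rw [wt1, Pool.Agent.Helper63.T5.gw1]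
        norm_num
      · show wt 2 = ((gw 2 : ℕ) : ℝ) / 8
        rw [wt2, Pool.Agent.Helper63.T5.gw2]
        norm_num
    rw [e1]
    rfl
  · intro r hr
    have h4 := rL_bounds hm k l
    have h5 := hrl r hr.le
    have h6 := (r_lt hm h hr).2
    have e1 := wW_step hm k l (i := t + r) (by omega)
    have e2 : (2 : ℝ) ^ 20 * (wW m k l (t + r + 1) : ℝ) ≤ wW m k l (t + r) := by exact_mod_cast e1
    have e3 : (0 : ℝ) ≤ (wW m k l (t + r + 1) : ℝ) := Nat.cast_nonneg _
    norm_num at e2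
    have e4 : 1000 * (wW m k l (t + r + 1) : ℝ) ≤ wW m k l (t + r) := by linarith
    have e5 := mul_le_mul_of_nonneg_right e4 hlam0
    have e6 : t + (r + 1) = t + r + 1 := rfl
    unfold wB
    rw [e6]
    linarith

/-- Nb0: numbers of a pair -/
theorem numbers (m : Sq) (k : ℕ) (hm : m.Ok) : ∃ K0 : ℕ, ∀ t l' l, K0 ≤ l' → PDb m k t l' l →
    20 * (l - l') < 7 * wW m k l t ∧ hb m k t l' l ≤ 3 ∧
      (∀ i, i < rL m k l → 2 ^ 10 * wW m k l (i + 1) ≤ wW m k l i) := by
  refine ⟨0, fun t l' l _ h => ⟨D7 hm h, hb_le_three hm h, fun i hi => ?_⟩⟩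
  have h4 := rL_bounds hm k l
  have h1 := wW_step hm k l (i := i) (by omega)
  exact (Nat.mul_le_mul_right _ (by norm_num)).trans h1

end Pool.Agent.Helper63.T5g
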