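import Pool.Agent.Helper63.T5b.NumAbs
import Pool.Agent.Helper63.T5g.Late

/-!
# T5g: the structure `NumX` from the moduli `NL`, general form

`BD P m k l' l v R`: the block `P` has the moduli `NL / R` of the states `l' ≤ l`, `v r` is the index
of the size of the front number `r` and of the triple of the level `r`.  It covers the pairs without
event and across DROP (`v r = sL l - (t + r)`, `R = RT (sL l)`) and the pairs across SPLIT.
-/

set_option autoImplicit false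

namespace Pool.Agent.Helper63.T5g

open Finset Pool.Agent.Helper37.T5g Pool.Agent.Helper22.SL
open Pool.Agent.Helper30.T5g hiding NL_pos
open Pool.Agent.Helper84.T5g
open Pool.Agent.Helper63.T5b (NumX Big wt wt0 wt1 wt2)
open Pool.Agent.Helper27.T5 (gw)
open Pool.Agent.Helper63.T5 (lam lam_gt lam_lt)

variable {κ : Type*} {P : Pr κ} {m : Sq} {k l' l : ℕ} {v : ℕ → ℕ} {R : ℝ}

/-- the constant of the structure `Num` (the same as `KB`) -/
noncomputable def KG (k : ℕ) : ℝ := (200 * (BP k : ℝ) ^ 2) ^ 3 * (BP k : ℝ) ^ 2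

/-- the block `P` has the moduli `NL / R` -/
structure BD (P : Pr κ) (m : Sq) (k l' l : ℕ) (v : ℕ → ℕ) (R : ℝ) : Prop where
  le : l' ≤ l
  R0 : 0 < R
  h3 : P.h ≤ 3
  M : (P.M : ℝ) = Real.exp (lg m k l) / R
  M' : (P.M' : ℝ) = Real.exp (lg m k l') / R
  F : ∀ r ≤ P.h, (P.F r : ℝ) = Real.exp (lg m k (ez m (v r) l)) / R
  F' : ∀ r ≤ P.h, (P.F' r : ℝ) = Real.exp (lg m k (ez m (v r) l')) / R
  q : ∀ r < P.h, ∀ i, P.q r i = QF m k (v r) i
  p : ∀ r < P.h, ∀ i, (P.p r i : ℝ) ≤ BP k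
  vs : ∀ r < P.h, v (r + 1) < v r
  vb : ∀ r ≤ P.h, bL m k l' ≤ v r
  D : ∀ r < P.h, 20 * (l - l') < 7 * SS m (v r)
  jump : ∀ r, 1 ≤ r → r ≤ P.h → ez m (v r) l' ≠ ez m (v r) l

theorem one_le_BP' (k : ℕ) : (1 : ℝ) ≤ BP k := by exact_mod_cast BP_pos k

theorem prod_two_primes_nonneg (x y : ℕ) : (0 : ℝ) ≤ 200 * (x : ℝ) * y := by positivity

theorem prod_two_primes_le {x y : ℕ} {B : ℝ} (hx : (x : ℝ) ≤ B) (hy : (y : ℝ) ≤ B) :
    200 * (x : ℝ) * y ≤ 200 * B ^ 2 := by
  have h0 : (0 : ℝ) ≤ x := Nat.cast_nonneg _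
  have h1 : (0 : ℝ) ≤ y := Nat.cast_nonneg _
  nlinarith

theorem BD.A_le (h : BD P m k l' l v R) {r : ℕ} (hr : r ≤ P.h) :
    0 ≤ P.A r ∧ P.A r ≤ (200 * (BP k : ℝ) ^ 2) ^ 3 := by
  have h0 := one_le_BP' k
  have h1 : (1 : ℝ) ≤ 200 * (BP k : ℝ) ^ 2 := by nlinarith
  have h3 := h.h3
  constructor
  · exact Finset.prod_nonneg (fun _ _ => prod_two_primes_nonneg _ _)
  · unfold Pr.A
    calc ∏ i ∈ range r, (200 * (P.p i 0 : ℝ) * P.p i 1)
        ≤ ∏ _i ∈ range r, (200 * (BP k : ℝ) ^ 2) := by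
          refine Finset.prod_le_prod (fun _ _ => prod_two_primes_nonneg _ _) (fun i hi => ?_)
          rw [mem_range] at hi
          exact prod_two_primes_le (h.p i (by omega) 0) (h.p i (by omega) 1)
      _ = (200 * (BP k : ℝ) ^ 2) ^ r := by rw [Finset.prod_const, card_range]
      _ ≤ (200 * (BP k : ℝ) ^ 2) ^ 3 := pow_le_pow_right₀ h1 (by omega)

theorem BD.ratio (hm : m.Ok) (h : BD P m k l' l v R) {r : ℕ} (hr : r < P.h) :
    1048576 * (SS m (v (r + 1)) : ℝ) ≤ SS m (v r) := by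
  have h1 := h.vs r hr
  obtain ⟨u, hu⟩ : ∃ u, v r = u + 1 := ⟨v r - 1, by omega⟩
  have e1 : SS m (v (r + 1)) ≤ SS m u := SS_mono m (by omega)
  have e2 := SS_succ_ge hm u
  have e3 : 2 ^ 20 * SS m u ≤ SS m (u + 1) :=
    (Nat.mul_le_mul_right _ (Nat.pow_le_pow_right (by norm_num) (by norm_num))).trans e2
  rw [← hu] at e3
  have e4 : 1048576 * SS m (v (r + 1)) ≤ SS m (v r) :=
    (Nat.mul_le_mul_left _ e1).trans (by norm_num at e3; exact e3)
  exact_mod_cast e4

/-- **the structure `NumX`, general form** -/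
theorem BD.numX (hm : m.Ok) (h : BD P m k l' l v R) {c : ℝ} (hL : LateN m k c l') :
    NumX P (lg m k l - lg m k l') (fun r => (SS m (v r) : ℝ) * lam)
      (fun r => lg m k (ez m (v r) l) - lg m k l)
      (fun r => lg m k (ez m (v r) l') - lg m k l') (KG k) := by
  have hlam := lam_gt
  have hlam0 : 0 ≤ lam := by linarith
  have hR := h.R0
  have hM := h.M
  have hM' := h.M'
  have hM'0 : (0 : ℝ) < P.M' := by
    rw [hM']
    exact div_pos (Real.exp_pos _) hR
  have hvb' : ∀ r < P.h, bL m k l' < v r := fun r hr =>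
    lt_of_le_of_lt (h.vb (r + 1) hr) (h.vs r hr)
  have hWb : ∀ r ≤ P.h, SS m (bL m k l') ≤ SS m (v r) := fun r hr => SS_mono m (h.vb r hr)
  have hW20 : ∀ r ≤ P.h, (20000 : ℝ) ≤ SS m (v r) := by
    intro r hr
    obtain ⟨C, -, h2⟩ := hL.nl
    have := hWb r hr
    exact_mod_cast (by omega : 20000 ≤ SS m (v r))
  have hw0 : ∀ r, 0 ≤ (SS m (v r) : ℝ) * lam := fun r => mul_nonneg (Nat.cast_nonneg _) hlam0
  have hKG : (200 * (BP k : ℝ) ^ 2) ^ 3 ≤ KG k :=
    le_mul_of_one_le_right (by positivity) (one_le_pow₀ (one_le_BP' k))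
  have hK1 : 1 ≤ KG k := by
    refine le_trans ?_ hKG
    apply one_le_pow₀
    have h1 : (1 : ℝ) ≤ (BP k : ℝ) ^ 2 := one_le_pow₀ (one_le_BP' k)
    linarith
  refine
    { D0 := ?_
      M := ?_
      M'0 := by exact_mod_cast hM'0
      F := ?_
      F' := ?_
      sl := ?_
      su := ?_
      sl' := ?_
      su' := ?_
      q0 := ?_
      q1 := ?_
      q2 := ?_
      qu := ?_
      deep := ?_
      w1 := ?_
      w0 := hw0 _
      Dl := ?_
      jump := ?_
      K1 := hK1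
      A := fun r hr => (h.A_le hr).2.trans hKG
      Ap := ?_
      h3 := h.h3
      qg := ?_
      deepX := ?_ }
  · have := lg_mono m k h.le
    linarith
  · rw [hM, hM', Real.exp_sub]
    field_simp
  · intro r hr
    rw [hM, h.F r hr, Real.exp_sub]
    field_simp
  · intro r hr
    rw [hM', h.F' r hr, Real.exp_sub]
    field_simp
  · intro r hr
    exact (hL.lead hm h.le (h.vb r hr)).1
  · intro r hr
    exact (hL.lead hm h.le (h.vb r hr)).2
  · intro r hr
    exact (hL.lead hm le_rfl (h.vb r hr)).1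
  · intro r hr
    exact (hL.lead hm le_rfl (h.vb r hr)).2
  · intro r hr
    rw [h.q r hr]
    refine hL.q_ge hm (hvb' r hr) 0 ?_
    rw [Pool.Agent.Helper63.T5.gw0]
    norm_num
  · intro r hr
    rw [h.q r hr]
    refine hL.q_ge hm (hvb' r hr) 1 ?_
    rw [Pool.Agent.Helper63.T5.gw1]
    norm_num
  · intro r hr
    rw [h.q r hr]
    refine hL.q_ge hm (hvb' r hr) 2 ?_
    rw [Pool.Agent.Helper63.T5.gw2]
    norm_num
  · intro r hr i
    rw [h.q r hr]
    refine (q_le hm k _ i).trans (Real.exp_le_exp.2 ?_)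
    have e2 : (gw i : ℝ) ≤ 4 := by
      have : gw i ≤ 4 := by fin_cases i <;> simp [gw]
      exact_mod_cast this
    have e3 := hw0 r
    nlinarith
  · intro r hr
    have e1 := h.ratio hm hr
    have e3 : (0 : ℝ) ≤ (SS m (v (r + 1)) : ℝ) := Nat.cast_nonneg _
    have e4 : 20 * (SS m (v (r + 1)) : ℝ) ≤ SS m (v r) := by linarith
    have e5 := mul_le_mul_of_nonneg_right e4 hlam0
    show 20 * ((SS m (v (r + 1)) : ℝ) * lam) ≤ (SS m (v r) : ℝ) * lam
    linarith
  · intro r hr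
    have e1 := hW20 r hr.le
    show 1000 ≤ (SS m (v r) : ℝ) * lam
    nlinarith
  · intro r hr
    have e1 := h.D r hr
    have e2 := hL.lg_le le_rfl h.le (hWb r hr.le)
    have e3 : 20 * ((l - l' : ℕ) : ℝ) ≤ 7 * (SS m (v r) : ℝ) := by exact_mod_cast e1.le
    refine e2.trans ?_
    show _ ≤ 0.351 * ((SS m (v r) : ℝ) * lam)
    rw [← mul_assoc]
    apply mul_le_mul_of_nonneg_right _ hlam0
    have e4 : (0 : ℝ) ≤ (SS m (v r) : ℝ) := Nat.cast_nonneg _
    linarith
  · intro r hr1 hr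
    rw [h.F r hr, h.F' r hr, div_mul_eq_mul_div, ← Real.exp_add]
    apply div_le_div_of_nonneg_right _ hR.le
    apply Real.exp_le_exp.2
    have e1 := ez_add_step h.le (h.jump r hr1 hr)
    have e2 := PZ_mul hm (v r)
    have e3 := lg_ge m k (x := ez m (v r) l') (y := ez m (v r) l) (by omega)
    have e4 : (PZ m (v r) : ℝ) ≤ ((ez m (v r) l - ez m (v r) l' : ℕ) : ℝ) := by
      exact_mod_cast (by omega : PZ m (v r) ≤ ez m (v r) l - ez m (v r) l')
    have e5 : (512 : ℝ) * PZ m (v r) = SS m (v r) := by exact_mod_cast e2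
    have e6 := mul_le_mul_of_nonneg_right e4 hlam0
    have e7 : (SS m (v r) : ℝ) * lam / 512 = (PZ m (v r) : ℝ) * lam := by
      rw [← e5]
      ring
    show _ + (SS m (v r) : ℝ) * lam / 512 ≤ _
    rw [e7]
    linarith
  · intro r hr
    have e1 := h.A_le hr.le
    have e6 : (P.p r 0 : ℝ) * P.p r 2 ≤ (BP k : ℝ) ^ 2 := by
      rw [sq]
      exact mul_le_mul (h.p r hr 0) (h.p r hr 2) (Nat.cast_nonneg _) (by linarith [one_le_BP' k])
    exact mul_le_mul e1.2 e6 (mul_nonneg (Nat.cast_nonneg _) (Nat.cast_nonneg _)) (by positivity)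
  · intro r hr i
    rw [h.q r hr]
    refine (q_le hm k _ i).trans (le_of_eq ?_)
    have e1 : wt i = (gw i : ℝ) / 8 := by
      fin_cases i
      · show wt 0 = ((gw 0 : ℕ) : ℝ) / 8
        rw [wt0, Pool.Agent.Helper63.T5.gw0]
        norm_num
      · show wt 1 = ((gw 1 : ℕ) : ℝ) / 8
        rw [wt1, Pool.Agent.Helper63.T5.gw1]
        norm_num
      · show wt 2 = ((gw 2 : ℕ) : ℝ) / 8
        rw [wt2, Pool.Agent.Helper63.T5.gw2]
        norm_num
    rw [e1]
  · intro r hr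
    have e1 := h.ratio hm hr
    have e3 : (0 : ℝ) ≤ (SS m (v (r + 1)) : ℝ) := Nat.cast_nonneg _
    have e4 : 1000 * (SS m (v (r + 1)) : ℝ) ≤ SS m (v r) := by linarith
    have e5 := mul_le_mul_of_nonneg_right e4 hlam0
    show 1000 * ((SS m (v (r + 1)) : ℝ) * lam) ≤ (SS m (v r) : ℝ) * lam
    linarith

/-- the sizes against the constants -/
theorem BD.big (h : BD P m k l' l v R) (hL : LateN m k (2000 * Real.log (80 * KG k)) l') :
    Big P (fun r => (SS m (v r) : ℝ) * lam) (KG k) 0 := by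
  refine ⟨le_rfl, fun r hr => ?_⟩
  have h1 := hL.c
  have h7 : (SS m (bL m k l') : ℝ) ≤ SS m (v r) := by exact_mod_cast SS_mono m (h.vb r hr.le)
  have h8 := lam_gt
  have h9 : (0 : ℝ) ≤ SS m (v r) := Nat.cast_nonneg _
  show 2000 * (Real.log (80 * KG k) + 0) ≤ (SS m (v r) : ℝ) * lam
  nlinarith

end Pool.Agent.Helper63.T5g
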