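import Pool.Agent.Helper63.T5g.PnOk

/-!
# T5g, block NEARb: the class numbers and the prices of the static block of a pair
-/

set_option autoImplicit false

namespace Pool.Agent.Helper63.T5g

open Finset
open Pool.Agent.Helper27.T4
open Pool.Agent.Helper37.T5g
open Pool.Agent.Helper30.T5g hiding pz_prime pz_inj NL_pos
open Pool.Agent.Helper22.HW Pool.Agent.Helper22.SL Pool.Agent.Helper57.T5
open Pool.Agent.Helper63.T5b (NumX Big wt wt0 wt1 wt2 Pr_L_succ)
open Pool.Agent.Helper84.T5g Pool.Agent.Helper44.T5 Pool.Agent.Helper44.T5g Pool.Agent.Helper44.T5b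
open Pool.Agent.Helper39.T5
open Pool.Agent.Helper22.NEARg hiding lam
open Pool.Agent.Helper5.ET (bb era mask)
open Pool.Agent.Helper27.T5 (gw)
open Pool.Agent.Helper63.T5 (lam lam_gt lam_lt)
open Pool.Agent.Helper27.T5g (cpl_ef cpl_self Jn_mul_RT rL_bounds mL_le_ut)

variable {m : Sq} {k t l' l : ℕ}

theorem Jn_split (m : Sq) (k s : ℕ) {x y : ℕ} (h : x ≤ y) :
    Jn m k s y = Jn m k s x * NN (pJ k s) (fun i => aJ m k s y i - aJ m k s x i) := by
  unfold Jn
  rw [← NN_add]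
  congr 1
  funext i
  have := aJ_mono m k s i h
  show aJ m k s y i = aJ m k s x i + (aJ m k s y i - aJ m k s x i)
  omega

/-- exponents of the class modulus of the front number `t + r` of the lower state -/
noncomputable def eB (m : Sq) (k t l' l r : ℕ) : JF → ℕ := fun i =>
  aJ m k (sL m k l) (ef m k l' (t + r)) i - aJ m k (sL m k l) l' i

/-- the class number -/
noncomputable def IrB (m : Sq) (k t l' l r : ℕ) : ℕ :=
  ∏ i, pJ k (sL m k l) i ^ (uJ m k l l' i - eB m k t l' l r i)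

theorem DJ_pos (m : Sq) (k l l' t : ℕ) : 0 < DJ m k l l' t := by
  unfold DJ
  exact NN_pos (pJ_prime k _) _

/-- `hF0` of `sl_union` -/
theorem FF_low (hm : m.Ok) (h : PDb m k t l' l) :
    FF m k l t = Jn m k (sL m k l) l' * DJ m k l l' t := by
  have h1 : l' ≤ ef m k l t := h.le.trans (lt_ef hm k l t).le
  exact Jn_split m k (sL m k l) h1

theorem F'_div (hm : m.Ok) (h : PDb m k t l' l) (r : ℕ) :
    (PN m k t l' l).F' r / (PN m k t l' l).M' = NN (pJ k (sL m k l)) (eB m k t l' l r) := by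
  rw [PN_F' h]
  have h1 : l' ≤ ef m k l' (t + r) := (lt_ef hm k l' (t + r)).le
  rw [Jn_split m k (sL m k l) h1]
  exact Nat.mul_div_cancel_left _ (Jn_pos _ _ _ _)

theorem eB_le (hm : m.Ok) (h : PDb m k t l' l) (r : ℕ) (i : JF) :
    eB m k t l' l r i ≤ dJ m k l l' t i := by
  unfold eB dJ
  have h1 : ef m k l' (t + r) ≤ ef m k l t := by
    rw [← h.com]
    exact ef_anti hm k l' (by omega)
  have := aJ_mono m k (sL m k l) i h1
  omega

theorem uJ_le (hm : m.Ok) (t l' l : ℕ) (i : JF) : uJ m k l l' i ≤ dJ m k l l' t i := by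
  unfold uJ dJ
  have := aJ_mono m k (sL m k l) i (lt_ef hm k l t).le
  omega

/-- the inverse -/
theorem Qi_spec (hm : m.Ok) (h : PDb m k t l' l) :
    LL (QQ m k (sL m k l)) t * Qi m k t l' l ≡ 1 [MOD DJ m k l l' t] := by
  have : NeZero (DJ m k l l' t) := ⟨(DJ_pos m k l l' t).ne'⟩
  have hrb := rL_bounds hm k l
  have ht := h.tr
  have hcop : (LL (QQ m k (sL m k l)) t).Coprime (DJ m k l l' t) := by
    unfold DJ NN
    exact Nat.Coprime.prod_right (fun i _ => Nat.Coprime.pow_right _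
      (coprime_LL_pJ (by omega) (by omega) i))
  apply (ZMod.natCast_eq_natCast_iff _ _ _).1
  unfold Qi
  rw [Nat.cast_mul, ZMod.natCast_zmod_val, Nat.cast_one]
  exact ZMod.coe_mul_inv_eq_one _ hcop

theorem Qi_coprime (hm : m.Ok) (h : PDb m k t l' l) :
    (Qi m k t l' l).Coprime (DJ m k l l' t) := by
  have h1 := Qi_spec hm h
  have h2 : (LL (QQ m k (sL m k l)) t * Qi m k t l' l).Coprime (DJ m k l l' t) := by
    unfold Nat.Coprime
    rw [Nat.ModEq.gcd_eq h1, Nat.gcd_one_left]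
  exact Nat.Coprime.coprime_mul_left h2

/-- labels in one class of a divisor of the modulus -/
theorem clJ_of_clx (hm : m.Ok) (h : PDb m k t l' l) (c : Cx) {q i i' : ℕ}
    (hq : q ∣ DJ m k l l' t)
    (he : clx m k t l' l c i ≡ clx m k t l' l c i' [MOD q]) :
    clJ m k l l' t c.1 i ≡ clJ m k l l' t c.1 i' [MOD q] := by
  unfold clx at he
  have h1 : (Qi m k t l' l).Coprime q := Nat.Coprime.coprime_dvd_right hq (Qi_coprime hm h)
  have h2 : clJ m k l l' t c.1 i + c.2.1 ≡ clJ m k l l' t c.1 i' + c.2.1 [MOD q] :=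
    Nat.ModEq.cancel_left_of_coprime (by rw [Nat.gcd_comm]; exact h1) he
  exact Nat.ModEq.add_right_cancel' _ h2

theorem mem_Jx_theta {c : Cx} (hc : c ∈ Jx m k t l' l) :
    c.1 ∈ Theta (pJ k (sL m k l)) (dJ m k l l' t) := (mem_product.1 hc).1

/-- number of labels in a class -/
theorem cls_card (hm : m.Ok) (h : PDb m k t l' l) {c : Cx} (hc : c ∈ Jx m k t l' l) (r x : ℕ) :
    ((range (IJ m k l l')).filter (fun i => clx m k t l' l c i %
      NN (pJ k (sL m k l)) (eB m k t l' l r) = x % NN (pJ k (sL m k l)) (eB m k t l' l r))).card ≤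
        IrB m k t l' l r := by
  classical
  set q := NN (pJ k (sL m k l)) (eB m k t l' l r) with hq
  set S := (range (IJ m k l l')).filter (fun i => clx m k t l' l c i % q = x % q) with hS
  rcases S.eq_empty_or_nonempty with h0 | ⟨i0, hi0⟩
  · rw [h0, card_empty]
    exact Nat.zero_le _
  have hqD : q ∣ DJ m k l l' t := NN_dvd _ (eB_le hm h r)
  have h1 := card_cln_class (pJ_prime k (sL m k l)) (pJ_ne_two k (sL m k l))
    (pJ_inj k (sL m k l)) (aJ m k (sL m k l) l') (dJ m k l l' t) (eB m k t l' l r)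
    (uJ m k l l') (eB_le hm h r) (mem_Jx_theta hc) (clJ m k l l' t c.1 i0)
  refine le_trans (card_le_card ?_) h1
  intro i hi
  rw [mem_filter]
  refine ⟨(mem_filter.1 hi).1, ?_⟩
  apply clJ_of_clx hm h c hqD
  show clx m k t l' l c i % q = clx m k t l' l c i0 % q
  rw [(mem_filter.1 hi).2, (mem_filter.1 hi0).2]

/-- `hIr` of `sl_union` -/
theorem hIr (hm : m.Ok) (h : PDb m k t l' l) {c : Cx} (hc : c ∈ Jx m k t l' l) (r x : ℕ) :
    (((range (IJ m k l l')).image (fun i => clx m k t l' l c i % DJ m k l l' t)).filter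
      (fun y => y % ((PN m k t l' l).F' r / (PN m k t l' l).M') =
        x % ((PN m k t l' l).F' r / (PN m k t l' l).M'))).card ≤ IrB m k t l' l r := by
  classical
  rw [F'_div hm h]
  have hqD : NN (pJ k (sL m k l)) (eB m k t l' l r) ∣ DJ m k l l' t := NN_dvd _ (eB_le hm h r)
  refine le_trans (card_le_card (t := ((range (IJ m k l l')).filter
    (fun i => clx m k t l' l c i % NN (pJ k (sL m k l)) (eB m k t l' l r) =
      x % NN (pJ k (sL m k l)) (eB m k t l' l r))).image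
        (fun i => clx m k t l' l c i % DJ m k l l' t)) ?_) ?_
  · intro y hy
    rw [mem_filter, mem_image] at hy
    obtain ⟨⟨i, hi, rfl⟩, h2⟩ := hy
    rw [Nat.mod_mod_of_dvd _ hqD] at h2
    exact mem_image.2 ⟨i, mem_filter.2 ⟨hi, h2⟩, rfl⟩
  · exact card_image_le.trans (cls_card hm h hc r x)

/-- `hC1` of `sl_union` -/
theorem hC1 (hm : m.Ok) (h : PDb m k t l' l) {c : Cx} (hc : c ∈ Jx m k t l' l) (x : ℕ) :
    ((range (IJ m k l l')).filter (fun i => clx m k t l' l c i % DJ m k l l' t = x)).card ≤ 1 := by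
  classical
  rw [card_le_one]
  intro i hi i' hi'
  rw [mem_filter, mem_range] at hi hi'
  have h1 : clx m k t l' l c i ≡ clx m k t l' l c i' [MOD DJ m k l l' t] := by
    show clx m k t l' l c i % DJ m k l l' t = clx m k t l' l c i' % DJ m k l l' t
    rw [hi.2, hi'.2]
  have h2 := clJ_of_clx hm h c dvd_rfl h1
  exact cln_inj (pJ_prime k (sL m k l)) (pJ_ne_two k (sL m k l)) (pJ_inj k (sL m k l))
    (aJ m k (sL m k l) l') (dJ m k l l' t) (dJ m k l l' t) (uJ m k l l') (fun _ => le_rfl)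
    (uJ_le hm t l' l) (mem_Jx_theta hc) hi.1 hi'.1 h2

/-! ## the number of labels -/

theorem IJ_sq_le (m : Sq) (k : ℕ) {l' l : ℕ} (h : l' ≤ l) :
    Jn m k (sL m k l) l' * IJ m k l l' ^ 2 ≤ Jn m k (sL m k l) l := by
  rw [Jn_split m k (sL m k l) h]
  apply Nat.mul_le_mul_left
  unfold IJ NN
  rw [← Finset.prod_pow]
  apply Finset.prod_le_prod' (fun i _ => ?_)
  rw [← pow_mul]
  apply Nat.pow_le_pow_right (pJ_prime k _ i).pos
  show (aJ m k (sL m k l) l i - aJ m k (sL m k l) l' i) / 2 * 2 ≤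
    aJ m k (sL m k l) l i - aJ m k (sL m k l) l' i
  exact Nat.div_mul_le_self _ _

/-- the number of labels in logarithms -/
theorem IJ_le (hm : m.Ok) (h : PDb m k t l' l) (hbb : bb 0 ≤ mL m k l') :
    (IJ m k l l' : ℝ) ≤ Real.exp (0 + (lg m k l - lg m k l') / 2) := by
  have hs := h.sL_eq
  have hbl : bb 0 ≤ mL m k l := hbb.trans (Pool.Agent.Helper27.T5b.l1_mono _ h.le)
  have h1 := Jn_real (cpl_self hm hbl)
  have h2 := Jn_real (cpl_self hm hbb)
  rw [hs] at h2
  have h3 : (Jn m k (sL m k l) l' : ℝ) * (IJ m k l l' : ℝ) ^ 2 ≤ Jn m k (sL m k l) l := by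
    exact_mod_cast IJ_sq_le m k h.le
  have hR : (0 : ℝ) < RT m k (sL m k l) := by exact_mod_cast RT_pos m k _
  have h4 : (IJ m k l l' : ℝ) ^ 2 ≤ Real.exp (lg m k l - lg m k l') := by
    rw [h1, h2, div_mul_eq_mul_div, div_le_div_iff_of_pos_right hR] at h3
    rw [Real.exp_sub, le_div_iff₀ (Real.exp_pos _)]
    linarith
  have h5 : Real.exp (0 + (lg m k l - lg m k l') / 2) ^ 2 = Real.exp (lg m k l - lg m k l') := by
    rw [← Real.exp_nat_mul]
    congr 1
    push_cast
    ring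
  rw [← h5] at h4
  exact le_of_sq_le_sq h4 (Real.exp_pos _).le

theorem IrB_le_IJ (m : Sq) (k t l' l r : ℕ) : IrB m k t l' l r ≤ IJ m k l l' := by
  unfold IrB IJ
  apply Finset.prod_le_prod' (fun i _ => ?_)
  exact Nat.pow_le_pow_right (pJ_prime k _ i).pos (Nat.sub_le _ _)

theorem IrB_eq_one {r : ℕ} (hl : l ≤ ef m k l' (t + r)) : IrB m k t l' l r = 1 := by
  unfold IrB
  apply Finset.prod_eq_one
  intro i _
  have h1 := aJ_mono m k (sL m k l) i hl
  have h2 : uJ m k l l' i - eB m k t l' l r i = 0 := by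
    unfold uJ eB
    omega
  rw [h2, pow_zero]

/-! ## the prices -/

/-- the number needed for `hA`, `hB` -/
noncomputable def cB (k : ℕ) : ℝ := 2000 * Real.log (80 * KB k)

theorem big_of_late (hm : m.Ok) (h : PDb m k t l' l) (hL : LateN m k (cB k) l') :
    Big (PN m k t l' l) (wB m k t l) (KB k) 0 := by
  refine ⟨le_rfl, fun r hr => ?_⟩
  have h1 := hL.c
  have h4 := rL_bounds hm k l
  have h5 := r_le h (le_of_lt hr)
  have hble := h.ble
  have h6 : SS m (bL m k l') ≤ wW m k l (t + r) := SS_mono m (by omega)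
  have h7 : (SS m (bL m k l') : ℝ) ≤ wW m k l (t + r) := by exact_mod_cast h6
  have h8 := lam_gt
  have h9 : (0 : ℝ) ≤ wW m k l (t + r) := Nat.cast_nonneg _
  unfold cB at h1
  unfold wB
  nlinarith

/-- `hA` of `sl_union` -/
theorem PN_hA (hm : m.Ok) (h : PDb m k t l' l) (hL : LateN m k (cB k) l') {δ : ℝ}
    (hδ : δ ≤ wW m k l (sb m k t l' l)) : ∀ r < (PN m k t l' l).h,
    80 * (IJ m k l l' : ℝ) * (PN m k t l' l).A r * (PN m k t l' l).p r 0 *
      (PN m k t l' l).p r 2 * Real.sqrt ((PN m k t l' l).q r 1) ≤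
        Real.exp (-δ) * (PN m k t l' l).q r 1 := by
  intro r hr
  have hX := numX hm h hL
  have h1 : δ ≤ wB m k t l (PN m k t l' l).h := by
    have e : wB m k t l (PN m k t l' l).h = (wW m k l (sb m k t l' l) : ℝ) * lam := rfl
    rw [e]
    have h2 := lam_gt
    have h3 : (0 : ℝ) ≤ wW m k l (sb m k t l' l) := Nat.cast_nonneg _
    nlinarith
  exact hX.hA (big_of_late hm h hL) (IJ_le hm h hL.bb) h1 hr

/-- `hB` of `sl_union` -/
theorem PN_hB (hm : m.Ok) (h : PDb m k t l' l) (hL : LateN m k (cB k) l') {δ : ℝ}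
    (hδ : δ ≤ wW m k l (sb m k t l' l)) : ∀ r < (PN m k t l' l).h, 1 ≤ r →
    (IrB m k t l' l r : ℝ) * (PN m k t l' l).A r * (PN m k t l' l).pc r ≤ Real.exp (-δ) := by
  intro r hr hr1
  have hX := numX hm h hL
  have h1 : δ ≤ wB m k t l (PN m k t l' l).h := by
    have e : wB m k t l (PN m k t l' l).h = (wW m k l (sb m k t l' l) : ℝ) * lam := rfl
    rw [e]
    have h2 := lam_gt
    have h3 : (0 : ℝ) ≤ wW m k l (sb m k t l' l) := Nat.cast_nonneg _
    nlinarith
  refine hX.hB (big_of_late hm h hL) h1 hr hr1 ?_ ?_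
  · intro hD
    have h2 : l ≤ ef m k l' (t + r) := le_of_lg_le m k (by linarith)
    rw [IrB_eq_one h2, Real.exp_zero, Nat.cast_one]
  · refine le_trans ?_ (IJ_le hm h hL.bb)
    exact_mod_cast IrB_le_IJ m k t l' l r

/-- `hΓ` of `sl_union` -/
theorem PN_hG (hm : m.Ok) (h : PDb m k t l' l) {c : ℝ} (hL : LateN m k c l') :
    ∀ r < (PN m k t l' l).h, ((PN m k t l' l).q r 0 * (PN m k t l' l).q r 1 : ℕ) *
      ((PN m k t l' l).W r * (PN m k t l' l).q r 1) ≤ Real.exp (42 * wW m k l t) := by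
  intro r hr
  refine ((numX hm h hL).hG hr).trans (Real.exp_le_exp.2 ?_)
  have e : wB m k t l 0 = (wW m k l t : ℝ) * lam := rfl
  rw [e]
  have h2 := lam_lt
  have h3 : (0 : ℝ) ≤ wW m k l t := Nat.cast_nonneg _
  nlinarith

/-- `hΓ'` of `sl_union` -/
theorem PN_hG' (hm : m.Ok) (h : PDb m k t l' l) {c : ℝ} (hL : LateN m k c l') :
    (PN m k t l' l).W (PN m k t l' l).h ≤ Real.exp (42 * wW m k l t) := by
  refine ((numX hm h hL).hG').trans (Real.exp_le_exp.2 ?_)
  have e : wB m k t l 0 = (wW m k l t : ℝ) * lam := rfl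
  rw [e]
  have h2 := lam_lt
  have h3 : (0 : ℝ) ≤ wW m k l t := Nat.cast_nonneg _
  nlinarith

end Pool.Agent.Helper63.T5g
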