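import Pool.Agent.Helper63.T5g.ZNumX
import Pool.Agent.Helper63.T5g.SplitNum

/-!
# T5g, lines 6 and 7: the numbers (Z5)
-/

set_option autoImplicit false

namespace Pool.Agent.Helper63.T5g

open Finset
open Pool.Agent.Helper27.T4
open Pool.Agent.Helper37.T5g
open Pool.Agent.Helper30.T5g hiding pz_prime pz_inj NL_pos
open Pool.Agent.Helper22.HW Pool.Agent.Helper22.SL Pool.Agent.Helper57.T5
open Pool.Agent.Helper84.T5g Pool.Agent.Helper44.T5 Pool.Agent.Helper44.T5g Pool.Agent.Helper44.T5b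
open Pool.Agent.Helper22.NEARg hiding lam
open Pool.Agent.Helper5.ET (bb era)
open Pool.Agent.Helper27.T5 (gw)
open Pool.Agent.Helper39.T5 (T1 TT mem_T1)
open Pool.Agent.Helper63.T5 (lam lam_gt lam_lt)
open Pool.Agent.Helper27.T5g (cpl_ef cpl_self Jn_mul_RT rL_bounds mL_le_ut)
open Pool.Agent.Helper1.T5g
open Pool.Agent.Helper63.T5b (NumX Big wt wt0 wt1 wt2 Pr_L_succ)
open Pool.Agent.Helper39.T5g (prB)

variable {m : Sq} {k t h l' l : ℕ}

/-! ## constants -/

theorem pJ_le_BP' (k s : ℕ) (i : JF) : pJ k s i ≤ BP k := by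
  rcases i with f | i
  · exact pr_le_BP k f
  · refine Fin.cases ?_ (fun f => ?_) i
    · exact (buf_lt_BP k).le
    · exact pz_le k (s + 1) f

theorem CJ_le (k s : ℕ) : CJ k s ≤ (2 * BP k) ^ 7 := by
  unfold CJ
  refine (Finset.prod_le_pow_card _ _ (2 * BP k) (fun i _ => ?_)).trans (le_of_eq ?_)
  · have := pJ_le_BP' k s i
    omega
  · have e : Fintype.card JF = 7 := by
      rw [Fintype.card_sum, Fintype.card_fin, Fintype.card_fin]
    rw [Finset.card_univ, e]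

theorem CS_le (k s t : ℕ) : CSo k s t ≤ (2 * BP k) ^ 3 := by
  unfold CSo
  refine (Finset.prod_le_pow_card _ _ (2 * BP k) (fun i _ => ?_)).trans (le_of_eq ?_)
  · have := pz_le k (s - t) i
    omega
  · rw [Finset.card_univ, Fintype.card_fin]

/-- the constant in the number of labels -/
noncomputable def CIz (k : ℕ) : ℝ := 10 * Real.log (2 * BP k)

theorem two_BP_ge (k : ℕ) : (1 : ℝ) ≤ 2 * BP k := by
  have := one_le_BP' k
  linarith

theorem CIz_nonneg (k : ℕ) : 0 ≤ CIz k := by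
  have := Real.log_nonneg (two_BP_ge k)
  unfold CIz
  linarith

theorem exp_CIz (k : ℕ) : Real.exp (CIz k) = (2 * BP k) ^ 10 := by
  have h0 : (0 : ℝ) < 2 * BP k := by
    have := two_BP_ge k
    linarith
  unfold CIz
  rw [show (10 : ℝ) * Real.log (2 * BP k) = ((10 : ℕ) : ℝ) * Real.log (2 * BP k) by norm_num,
    Real.exp_nat_mul, Real.exp_log h0]

theorem labC_le {k s s' t J : ℕ} {x : ℝ} (hJ : (J : ℝ) ≤ Real.exp x) :
    ((CSo k s' t * (CJ k s * J) : ℕ) : ℝ) ≤ Real.exp (CIz k + x) := by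
  have h1 : (CJ k s : ℝ) ≤ (2 * BP k) ^ 7 := by exact_mod_cast CJ_le k s
  have h2 : (CSo k s' t : ℝ) ≤ (2 * BP k) ^ 3 := by exact_mod_cast CS_le k s' t
  have h3 := two_BP_ge k
  rw [Real.exp_add, exp_CIz]
  push_cast
  calc (CSo k s' t : ℝ) * (CJ k s * J) ≤ (2 * BP k) ^ 3 * ((2 * BP k) ^ 7 * Real.exp x) := by
        refine mul_le_mul h2 (mul_le_mul h1 hJ (Nat.cast_nonneg _) (by positivity))
          (by positivity) (by positivity)
    _ = _ := by ring

theorem labC_le' {k s J : ℕ} {x : ℝ} (hJ : (J : ℝ) ≤ Real.exp x) :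
    ((CJ k s * J : ℕ) : ℝ) ≤ Real.exp (CIz k + x) := by
  have h1 : (CJ k s : ℝ) ≤ (2 * BP k) ^ 7 := by exact_mod_cast CJ_le k s
  have h3 := two_BP_ge k
  rw [Real.exp_add, exp_CIz]
  push_cast
  calc (CJ k s : ℝ) * J ≤ (2 * BP k) ^ 7 * Real.exp x := by
        refine mul_le_mul h1 hJ (Nat.cast_nonneg _) (by positivity)
    _ ≤ (2 * BP k) ^ 10 * Real.exp x := by
        apply mul_le_mul_of_nonneg_right _ (Real.exp_pos _).le
        exact pow_le_pow_right₀ h3 (by norm_num)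

/-- the number of labels in a class -/
theorem LJ_le_IJ {z : ℕ} (hz : l' ≤ z) : LJ m k l l' z ≤ IJ m k l l' := by
  unfold LJ IJ uJ
  apply Finset.prod_le_prod' (fun i _ => ?_)
  refine Nat.pow_le_pow_right (pJ_prime k _ i).pos ?_
  have h1 := aJ_mono m k (sL m k l) i hz
  omega

theorem LJ_eq_one {z : ℕ} (hll : l' ≤ l) (hz : l ≤ z) : LJ m k l l' z = 1 := by
  unfold LJ
  refine Finset.prod_eq_one (fun i _ => ?_)
  have h1 := aJ_mono m k (sL m k l) i hz
  have h2 := aJ_mono m k (sL m k l) i hll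
  have h3 : (aJ m k (sL m k l) l i + aJ m k (sL m k l) l' i - 2 * aJ m k (sL m k l) z i) / 2 = 0 := by
    omega
  rw [h3, pow_zero]

/-- the constant of the thresholds -/
noncomputable def cZ (k : ℕ) : ℝ := 2000 * (Real.log (80 * KG k) + CIz k)

theorem BD.bigC {κ : Type*} {P : Pr κ} {v : ℕ → ℕ} {R : ℝ} (h : BD P m k l' l v R)
    (hL : LateN m k (cZ k) l') : Big P (fun r => (SS m (v r) : ℝ) * lam) (KG k) (CIz k) := by
  refine ⟨CIz_nonneg k, fun r hr => ?_⟩
  have h1 := hL.c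
  unfold cZ at h1
  have h7 : (SS m (bL m k l') : ℝ) ≤ SS m (v r) := by exact_mod_cast SS_mono m (h.vb r hr.le)
  have h8 := lam_gt
  have h9 : (0 : ℝ) ≤ SS m (v r) := Nat.cast_nonneg _
  show 2000 * (Real.log (80 * KG k) + CIz k) ≤ (SS m (v r) : ℝ) * lam
  nlinarith

theorem IJZ_le (hm : m.Ok) (hD : DZ m k l' l) (hbb : bb 0 ≤ mL m k l') :
    (IJ m k l l' : ℝ) ≤ Real.exp ((lg m k l - lg m k l') / 2) := by
  refine IJ_le_gen rfl hD.le (cpl_self hm
    (hbb.trans (Pool.Agent.Helper27.T5b.l1_mono _ hD.le))) ?_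
  have := cpl_self hm hbb
  rw [DZ_sL hD] at this
  exact this

theorem le_SS_lam (x : ℕ) : (x : ℝ) ≤ (x : ℝ) * lam := by
  have h2 := lam_gt
  have h3 : (0 : ℝ) ≤ (x : ℝ) := Nat.cast_nonneg _
  nlinarith

/-- the numbers of the block of the levels `t, ..., t + h - 1` -/
theorem numZ (hm : m.Ok) (hD : DZ m k l' l) (hH : HZ m k l' l) (hL : LateN m k (cZ k) l')
    (hth : t + h = hz m k l' l) (s' : ℕ) : NumZ m k l' l t h (CSo k s' 0) := by
  have hbd := bdZ hm hD hH hL.bb hth.le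
  have hX := hbd.numX hm hL
  have hb := hbd.bigC hL
  have hI := IJZ_le hm hD hL.bb
  have hδ : (wW m k l (t + h) : ℝ) ≤
      (fun r => (SS m (sL m k l - (t + r)) : ℝ) * lam) (prB m k l' l t h).h :=
    le_SS_lam _
  have hw0 : (SS m (sL m k l - (t + 0)) : ℝ) ≤ wW m k l 0 := by
    exact_mod_cast SS_mono m (by omega)
  have h42 : (3 : ℝ) * ((SS m (sL m k l - (t + 0)) : ℝ) * lam) ≤ 42 * wW m k l 0 := by
    have h2 := lam_lt
    have h3 := lam_gt
    have h4 : (0 : ℝ) ≤ (SS m (sL m k l - (t + 0)) : ℝ) := Nat.cast_nonneg _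
    nlinarith
  refine ⟨?_, ?_, ?_, ?_⟩
  · intro r hr
    rw [PZo_A, PZo_p, PZo_p, PZo_q]
    exact hX.hA hb (labC_le hI) hδ (r := r) hr
  · intro r hr hr1
    rw [PZo_A, PZo_pc 0 0 hr1]
    refine hX.hB hb hδ (r := r) hr hr1 ?_ ?_
    · intro hc
      have hc' : lg m k l - lg m k l' ≤ lg m k (ez m (sL m k l - (t + r)) l') - lg m k l' := hc
      have h2 : l ≤ ez m (sL m k l - (t + r)) l' := le_of_lg_le m k (by linarith)
      have h3 : l ≤ ef m k l' (t + r) := by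
        unfold ef
        rw [DZ_sL hD]
        exact h2
      rw [LJ_eq_one hD.le h3]
      have := labC_le (k := k) (s := sL m k l) (s' := s') (t := 0) (J := 1) (x := 0)
        (by rw [Real.exp_zero, Nat.cast_one])
      rwa [add_zero] at this
    · have h4 : LJ m k l l' (ef m k l' (t + r)) ≤ IJ m k l l' := LJ_le_IJ (lt_ez hm _ l').le
      refine labC_le (le_trans ?_ hI)
      exact_mod_cast h4
  · intro r hr
    rw [PZo_q, PZo_q, PZo_W]
    exact (hX.hG (r := r) hr).trans (Real.exp_le_exp.2 h42)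
  · rw [PZo_W]
    exact hX.hG'.trans (Real.exp_le_exp.2 h42)

theorem card_T1_sq' (p a : ℕ) : (T1 p a).card ^ 2 ≤ p ^ a := by
  have h1 : (T1 p a).card ≤ Nat.sqrt (p ^ a) := by
    have h2 : T1 p a ⊆ Icc 1 (Nat.sqrt (p ^ a)) := by
      intro y hy
      rw [mem_T1] at hy
      rw [mem_Icc]
      refine ⟨hy.1.one_lt.le, ?_⟩
      rw [Nat.le_sqrt, ← pow_two]
      exact hy.2.2.le
    have h3 := card_le_card h2
    rw [Nat.card_Icc] at h3
    omega
  calc (T1 p a).card ^ 2 ≤ Nat.sqrt (p ^ a) ^ 2 := Nat.pow_le_pow_left h1 2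
    _ ≤ p ^ a := by rw [pow_two]; exact Nat.sqrt_le _

theorem card_Ys_sq (m : Sq) (k l : ℕ) : (Ys m k l 0).card * (Ys m k l 0).card ≤ QQ m k (sL m k l) 0 := by
  have h1 : (Ys m k l 0).card ≤ ∏ f, (T1 (pz k (sL m k l - 0) f) (zf m k (sL m k l - 0) f)).card :=
    (card_le_card (Ys_subset m k l 0)).trans (le_of_eq (Fintype.card_piFinset _))
  refine (Nat.mul_le_mul h1 h1).trans ?_
  rw [← Finset.prod_mul_distrib]
  refine Finset.prod_le_prod' (fun f _ => ?_)
  have := card_T1_sq' (pz k (sL m k l - 0) f) (zf m k (sL m k l - 0) f)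
  rw [pow_two] at this
  exact this

theorem card_Ys0_le (m : Sq) (k l : ℕ) : (((Ys m k l 0).image (fun y => y 0)).card : ℝ) ≤
    Real.sqrt ((pz k (sL m k l) 0 ^ zf m k (sL m k l) 0 : ℕ) : ℝ) := by
  have hsub : (Ys m k l 0).image (fun y => y 0) ⊆ T1 (pz k (sL m k l) 0) (zf m k (sL m k l) 0) := by
    intro v hv
    obtain ⟨y, hy, rfl⟩ := mem_image.1 hv
    exact mem_T1_of_Ys hy 0
  apply Real.le_sqrt_of_sq_le
  have h1 := (Nat.pow_le_pow_left (card_le_card hsub) 2).trans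
    (card_T1_sq' (pz k (sL m k l) 0) (zf m k (sL m k l) 0))
  exact_mod_cast h1

/-- the first family of the keyed level -/
theorem labY_le (hm : m.Ok) (hD : DZ m k l' l) (hH : HZ m k l' l) (hL : LateN m k (cZ k) l') :
    ((CJ k (sL m k l) * IJ m k l l' : ℕ) : ℝ) * ((Ys m k l 0).image (fun y => y 0)).card ≤
      Real.exp (-(wW m k l (hz m k l' l) : ℝ)) *
        ((pz k (sL m k l) 0 ^ zf m k (sL m k l) 0 : ℕ) : ℝ) := by
  have hbd := bdZ (t := 0) (h := hz m k l' l) hm hD hH hL.bb (by omega)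
  have hX := hbd.numX hm hL
  have hb := hbd.bigC hL
  have hI := IJZ_le hm hD hL.bb
  have hpos : 1 ≤ hz m k l' l := hb_pos m k 0 l' l
  have hr0 : 0 < (prB m k l' l 0 (hz m k l' l)).h := hpos
  have e0 := hX.q0 0 hr0
  have e1 := hX.Dl 0 hr0
  have e3 := hX.w_h_le hr0
  have e4 := hb.2 0 hr0
  have hK := hX.K1
  have hlog : 0 ≤ Real.log (80 * KG k) := Real.log_nonneg (by linarith)
  have hq : (((prB m k l' l 0 (hz m k l' l)).q 0 0 : ℕ) : ℝ) =
    ((pz k (sL m k l) 0 ^ zf m k (sL m k l) 0 : ℕ) : ℝ) := rfl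
  have e5 : (wW m k l (hz m k l' l) : ℝ) ≤
      (SS m (sL m k l - (0 + (prB m k l' l 0 (hz m k l' l)).h)) : ℝ) * lam := by
    have : (wW m k l (hz m k l' l) : ℝ) =
      (SS m (sL m k l - (0 + (prB m k l' l 0 (hz m k l' l)).h)) : ℝ) := by
      rw [zero_add]
      rfl
    rw [this]
    exact le_SS_lam _
  rw [hq] at e0
  set q : ℝ := ((pz k (sL m k l) 0 ^ zf m k (sL m k l) 0 : ℕ) : ℝ) with hqd
  set w0 : ℝ := (SS m (sL m k l - (0 + 0)) : ℝ) * lam with hw0d
  have hq0 : 0 ≤ q := Nat.cast_nonneg _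
  have hsq : Real.exp (0.187 * w0) ≤ Real.sqrt q := by
    apply Real.le_sqrt_of_sq_le
    rw [← Real.exp_nat_mul]
    refine le_trans (le_of_eq ?_) e0
    congr 1
    push_cast
    ring
  have h1 := labC_le' (k := k) (s := sL m k l) hI
  have h2 := card_Ys0_le m k l
  have h3 : Real.exp (CIz k + (lg m k l - lg m k l') / 2) ≤
      Real.exp (-(wW m k l (hz m k l' l) : ℝ)) * Real.sqrt q := by
    calc Real.exp (CIz k + (lg m k l - lg m k l') / 2)
        ≤ Real.exp (-(wW m k l (hz m k l' l) : ℝ) + 0.187 * w0) := by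
          apply Real.exp_le_exp.2
          have e4' : 2000 * (Real.log (80 * KG k) + CIz k) ≤ w0 := e4
          have e3' : 1000 * ((SS m (sL m k l - (0 + (prB m k l' l 0 (hz m k l' l)).h)) : ℝ) * lam)
            ≤ w0 := e3
          have e1' : lg m k l - lg m k l' ≤ 0.351 * w0 := e1
          linarith
      _ = Real.exp (-(wW m k l (hz m k l' l) : ℝ)) * Real.exp (0.187 * w0) := Real.exp_add _ _
      _ ≤ _ := mul_le_mul_of_nonneg_left hsq (Real.exp_pos _).le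
  calc ((CJ k (sL m k l) * IJ m k l l' : ℕ) : ℝ) * ((Ys m k l 0).image (fun y => y 0)).card
      ≤ (Real.exp (-(wW m k l (hz m k l' l) : ℝ)) * Real.sqrt q) * Real.sqrt q :=
        mul_le_mul (h1.trans h3) h2 (Nat.cast_nonneg _) (by positivity)
    _ = _ := by rw [mul_assoc, Real.mul_self_sqrt hq0]

theorem QQ0_le (hm : m.Ok) (k l : ℕ) :
    ((QQ m k (sL m k l) 0 : ℕ) : ℝ) ≤ Real.exp (14 * wW m k l 0) := by
  have h1 : ((QQ m k (sL m k l) 0 : ℕ) : ℝ) = ∏ i, (QF m k (sL m k l - 0) i : ℝ) := by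
    unfold QQ QT
    push_cast
    rfl
  rw [h1]
  have h0 : (0 : ℝ) ≤ (SS m (sL m k l - 0) : ℝ) := Nat.cast_nonneg _
  calc ∏ i, (QF m k (sL m k l - 0) i : ℝ)
      ≤ ∏ i : Fin 3, Real.exp ((gw i : ℝ) / 8 * ((SS m (sL m k l - 0) : ℝ) * lam)) :=
        Finset.prod_le_prod (fun _ _ => Nat.cast_nonneg _) (fun i _ => q_le hm k _ i)
    _ = Real.exp ((SS m (sL m k l - 0) : ℝ) * lam) := by
        rw [← Real.exp_sum]
        congr 1
        rw [← Finset.sum_mul, Fin.sum_univ_three, Pool.Agent.Helper63.T5.gw0,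
          Pool.Agent.Helper63.T5.gw1, Pool.Agent.Helper63.T5.gw2]
        norm_num
    _ ≤ _ := by
        apply Real.exp_le_exp.2
        have h2 := lam_lt
        show (SS m (sL m k l - 0) : ℝ) * lam ≤ 14 * (SS m (sL m k l - 0) : ℝ)
        nlinarith

/-- **Z5** -/
theorem numZS {m : Sq} {k : ℕ} (hm : m.Ok) (h0 : HzS m k) [hQ : BigQ m k] :
    NumZS m k := by
  obtain ⟨K0, h0⟩ := h0
  obtain ⟨l0, h1⟩ := exists_lateN hm k (cZ k)
  refine ⟨max K0 l0, fun l' l hl' hD => ?_⟩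
  have hL := h1 l' ((le_max_right _ _).trans hl')
  obtain ⟨_, a1, a2, _, _, a3, _⟩ := h0 l' l ((le_max_left _ _).trans hl') hD
  have hH : HZ m k l' l := ⟨a1, a2, a3⟩
  exact ⟨fun t h _ hth => numZ hm hD hH hL hth _, labY_le hm hD hH hL,
    card_Ys_sq m k l, QQ0_le hm k l⟩

end Pool.Agent.Helper63.T5g
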