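import Pool.Agent.Helper63.T5g.NumB

/-!
# T5g, block NEARb: the pair is an instance of the static block (`Pr.Ok`)
-/

set_option autoImplicit false

namespace Pool.Agent.Helper63.T5g

open Finset
open Pool.Agent.Helper27.T4
open Pool.Agent.Helper37.T5g
open Pool.Agent.Helper30.T5g hiding pz_prime pz_inj NL_pos
open Pool.Agent.Helper22.HW Pool.Agent.Helper22.SL Pool.Agent.Helper57.T5
open Pool.Agent.Helper63.T5b (NumX Big wt wt0 wt1 wt2 Pr_L_succ)
open Pool.Agent.Helper84.T5g Pool.Agent.Helper44.T5 Pool.Agent.Helper44.T5g Pool.Agent.Helper44.T5b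
open Pool.Agent.Helper39.T5
open Pool.Agent.Helper22.NEARg hiding lam
open Pool.Agent.Helper5.ET (bb era mask)
open Pool.Agent.Helper27.T5 (gw)
open Pool.Agent.Helper63.T5 (lam lam_gt lam_lt)
open Pool.Agent.Helper27.T5g (cpl_ef cpl_self Jn_mul_RT rL_bounds mL_le_ut)

variable {m : Sq} {k t l' l : ℕ}

theorem PN_Q (m : Sq) (k t l' l r : ℕ) : (PN m k t l' l).Q r = QQ m k (sL m k l) (t + r) := rfl

theorem PN_L (m : Sq) (k t l' l r : ℕ) : (PN m k t l' l).L r = LL (QQ m k (sL m k l)) (t + r) := by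
  induction r with
  | zero =>
    unfold Pr.L
    rw [Finset.range_zero, Finset.prod_empty, mul_one]
    rfl
  | succ r ih =>
    rw [Pr_L_succ, ih, PN_Q, ← add_assoc, LL_succ, mul_comm]

theorem PN_S (m : Sq) (k t l' l r : ℕ) : (PN m k t l' l).S r = Ss m k l (t + r) 0 := by
  have e : (PN m k t l' l).S r = ⟨FF m k l (t + (r + 1)) * (PN m k t l' l).L r,
    zf m k (sL m k l - (t + r)), zf m k (sL m k l - (t + r)), (Ss m k l (t + r) 0).key⟩ := rfl
  rw [e, PN_L]
  rfl

/-- the side of the lower state, number of split levels as a parameter -/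
theorem side_ok {m : Sq} {k l' u s : ℕ} (hs : sL m k l' = s) (hu : u ≤ s) (hk : u ≤ k + 1) :
    (⟨FF m k l' (u + 1) * LL (QQ m k s) u, zf m k (s - u), zf m k (s - u),
      (Ss m k l' u 0).key⟩ : Side (pz k (s - u)) Key).Ok rk3 (Mk m k) := by
  subst hs
  exact Ss_ok hu hk 0

theorem PN_F' (h : PDb m k t l' l) (r : ℕ) :
    (PN m k t l' l).F' r = Jn m k (sL m k l) (ef m k l' (t + r)) := by
  show Jn m k (sL m k l') (ef m k l' (t + r)) = _
  rw [h.sL_eq]

theorem ef_mono' (h : PDb m k t l' l) (i : ℕ) : ef m k l' i ≤ ef m k l i := by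
  unfold ef
  rw [h.sL_eq]
  exact ez_mono m _ h.le

theorem ef_anti (hm : m.Ok) (k x : ℕ) {i i' : ℕ} (hi : i ≤ i') : ef m k x i' ≤ ef m k x i := by
  unfold ef
  exact ez_le hm (by omega) x

theorem lt_ef (hm : m.Ok) (k x i : ℕ) : x < ef m k x i := by
  unfold ef
  exact lt_ez hm _ x

theorem coprime_LL_Jn {m : Sq} {k s u : ℕ} (hu : u ≤ s + 1) (hk : u ≤ k + 2) (x : ℕ) :
    (LL (QQ m k s) u).Coprime (Jn m k s x) := by
  unfold Jn NN
  exact Nat.Coprime.prod_right (fun i _ => Nat.Coprime.pow_right _ (coprime_LL_pJ hu hk i))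

/-- **`P.Ok` for the pair** -/
theorem PN_ok (hm : m.Ok) (h : PDb m k t l' l) {c : ℝ} (hL : LateN m k c l') :
    (PN m k t l' l).Ok (Mk m k) := by
  have hX := numX hm h hL
  have hs := h.sL_eq
  have hrb := rL_bounds hm k l
  have hrl : ∀ r ≤ (PN m k t l' l).h, t + r ≤ rL m k l := fun r hr => r_le h hr
  have hlt := h.lt
  refine
    { prime := fun r i => pz_prime k _ i
      odd := fun r i => pz_ne_two k _ i
      inj := fun r => pz_inj k _
      sok := ?_
      sok' := ?_
      adm := fun r => Pool.Agent.Helper73.T5.sadm_of_adm (pz_prime k _) (pz_ne_two k _)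
        (Ys_adm m k l (t + r))
      kd := ?_
      kd' := ?_
      kdd' := ?_
      com := ?_
      posF := FF_pos _ _ _ _
      posM' := Jn_pos _ _ _ _
      posL := LL_QQ_pos _ _ _ _
      M'M := Jn_dvd _ _ _ h.le
      MF := ?_
      M'F' := ?_
      F'F := ?_
      FF := ?_
      F'F' := ?_
      copL := ?_
      size := fun r hr => hX.size hr
      zF := fun r hr => hX.zF hr
      mid := fun r hr => hX.mid hr }
  · intro r hr
    have h1 := hrl r hr.le
    rw [PN_S]
    exact Ss_ok (by omega) (by omega) 0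
  · intro r hr
    have h1 := hrl r hr.le
    have e : (PN m k t l' l).S' r = ⟨FF m k l' (t + r + 1) * (PN m k t l' l).L r,
      zf m k (sL m k l - (t + r)), zf m k (sL m k l - (t + r)), (Ss m k l' (t + r) 0).key⟩ := rfl
    rw [e, PN_L]
    exact side_ok hs (by omega) (by omega)
  · intro r r' hrr i y i' y' hk
    have h1 : Key.S l (t + r) i 0 (mask (univ.filter (fun g => g < i)) y) =
      Key.S l (t + r') i' 0 (mask (univ.filter (fun g => g < i')) y') := hk
    simp only [Key.S.injEq, true_and] at h1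
    omega
  · intro r r' hrr i y i' y' hk
    have h1 : Key.S l' (t + r) i 0 (mask (univ.filter (fun g => g < i)) y) =
      Key.S l' (t + r') i' 0 (mask (univ.filter (fun g => g < i')) y') := hk
    simp only [Key.S.injEq, true_and] at h1
    omega
  · intro r r' i y i' y' hk
    have h1 : Key.S l (t + r) i 0 (mask (univ.filter (fun g => g < i)) y) =
      Key.S l' (t + r') i' 0 (mask (univ.filter (fun g => g < i')) y') := hk
    simp only [Key.S.injEq] at h1
    omega
  · rw [PN_F' h]
    show Jn m k (sL m k l) (ef m k l (t + 0)) = _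
    rw [add_zero, h.com]
  · intro r _
    exact Jn_dvd _ _ _ (lt_ef hm k l (t + r)).le
  · intro r _
    rw [PN_F' h]
    exact Jn_dvd _ _ _ (lt_ef hm k l' (t + r)).le
  · intro r _
    rw [PN_F' h]
    exact Jn_dvd _ _ _ (ef_mono' h (t + r))
  · intro r _
    exact Jn_dvd _ _ _ (ef_anti hm k l (by omega))
  · intro r _
    rw [PN_F' h, PN_F' h]
    exact Jn_dvd _ _ _ (ef_anti hm k l' (by omega))
  · intro r hr
    have h1 := hrl r hr
    rw [PN_L]
    exact coprime_LL_Jn (by omega) (by omega) _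

end Pool.Agent.Helper63.T5g
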