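import Pool.Agent.Helper63.T5g.NumG0
import Pool.Agent.Helper39.T5g.SlInst

/-!
# T5g, block NEARb: the numbers in the forms of helper39 (`NumB`) and helper66 (`Tg`, sharp labels)
-/

set_option autoImplicit false

namespace Pool.Agent.Helper63.T5g

open Finset
open Pool.Agent.Helper27.T4
open Pool.Agent.Helper37.T5g
open Pool.Agent.Helper30.T5g hiding pz_prime pz_inj NL_pos
open Pool.Agent.Helper22.HW Pool.Agent.Helper22.SL Pool.Agent.Helper57.T5
open Pool.Agent.Helper63.T5b (NumX Big wt wt0 wt1 wt2 Pr_L_succ)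
open Pool.Agent.Helper84.T5g Pool.Agent.Helper44.T5 Pool.Agent.Helper44.T5g Pool.Agent.Helper44.T5b
open Pool.Agent.Helper39.T5
open Pool.Agent.Helper22.NEARg hiding lam
open Pool.Agent.Helper5.ET (bb era mask)
open Pool.Agent.Helper27.T5 (gw)
open Pool.Agent.Helper63.T5 (lam lam_gt lam_lt)
open Pool.Agent.Helper27.T5g (cpl_ef cpl_self Jn_mul_RT rL_bounds mL_le_ut)

variable {m : Sq} {k t l' l : ℕ}

theorem IrJ_eq (h : PDb m k t l' l) (r : ℕ) :
    Pool.Agent.Helper39.T5g.IrJ m k l l' t r = IrB m k t l' l r := by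
  have e : ef m k l' (t + r) = ez m (sL m k l - (t + r)) l' := by
    unfold ef
    rw [h.sL_eq]
  unfold Pool.Agent.Helper39.T5g.IrJ IrB Pool.Agent.Helper39.T5g.eJ eB
  rw [e]

/-- the numbers of a pair in the form of helper39 -/
theorem numB_of (hm : m.Ok) (h : PDb m k t l' l) (hL : LateN m k (cB k) l') :
    Pool.Agent.Helper39.T5g.NumB m k t l' l (Real.exp (42 * wW m k l t)) where
  big := hL.bb.trans (Pool.Agent.Helper27.T5b.l1_mono _ h.le)
  big' := hL.bb
  ok := PN_ok hm h hL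
  hA := fun δ hδ r hr => PN_hA hm h hL hδ r hr
  hB := fun δ hδ r hr hr1 => by
    rw [IrJ_eq h]
    exact PN_hB hm h hL hδ r hr hr1
  hG := fun r hr => PN_hG hm h hL r hr
  hG' := PN_hG' hm h hL

theorem exists_numB (m : Sq) (k : ℕ) (hm : m.Ok) [hQ : BigQ m k] :
    ∃ K0 : ℕ, ∀ t l' l, K0 ≤ l' → PDb m k t l' l →
    Pool.Agent.Helper39.T5g.NumB m k t l' l (Real.exp (42 * wW m k l t)) := by
  obtain ⟨K0, h0⟩ := exists_lateN hm k (cB k)
  exact ⟨K0, fun t l' l hl' h => numB_of hm h (h0 l' hl')⟩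

end Pool.Agent.Helper63.T5g
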